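import Pool.Agent.helper78.WB.SpecIII

set_option autoImplicit false

namespace Pool.Agent.WB

open MvPolynomial

theorem PB2_s3 (e : ℕ) :
    s3 (2 * (e + 1) - 1) < s3 (2 * (e + 1) - 1 - (e + 1)) + s3 e * (2 * (2 + 1) / 2) := by
  have h1 : 2 * (e + 1) - 1 = 2 * e + 1 := by omega
  have h2 : 2 * e + 1 - (e + 1) = e := by omega
  rw [h1, h2]
  unfold s3
  have h3 : (2 * e + 1 + 1) * (2 * e + 1 + 2) / 2 = (e + 1) * (2 * e + 3) := by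
    have : (2 * e + 1 + 1) * (2 * e + 1 + 2) = 2 * ((e + 1) * (2 * e + 3)) := by ring
    rw [this, Nat.mul_div_cancel_left _ (by norm_num)]
  obtain ⟨a, ha⟩ : 2 ∣ (e + 1) * (e + 2) := (Nat.even_mul_succ_self (e + 1)).two_dvd
  rw [h3, ha, Nat.mul_div_cancel_left _ (by norm_num)]
  have h4 : 2 * (2 + 1) / 2 = 3 := by norm_num
  rw [h4]
  nlinarith

theorem PB2_s3_mono {a b : ℕ} (h : a ≤ b) : s3 a ≤ s3 b := by
  unfold s3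
  exact Nat.div_le_div_right (Nat.mul_le_mul (by omega) (by omega))

theorem PB2_s3_pos (a : ℕ) : 1 ≤ s3 a := by
  have h : s3 0 ≤ s3 a := PB2_s3_mono (Nat.zero_le a)
  have h0 : s3 0 = 1 := rfl
  omega

theorem PB2_abs_le {N : ℕ} {θ : ℝ} {a : ℤ} (h : |(a : ℝ)| ≤ (N : ℝ) ^ θ) :
    |a| ≤ ((⌊(N : ℝ) ^ θ⌋₊ : ℕ) : ℤ) := by
  have h1 : ((a.natAbs : ℕ) : ℝ) ≤ (N : ℝ) ^ θ := by
    rw [Nat.cast_natAbs, Int.cast_abs]
    exact h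
  have h2 : a.natAbs ≤ ⌊(N : ℝ) ^ θ⌋₊ := Nat.le_floor h1
  rw [Int.abs_eq_natAbs]
  exact_mod_cast h2

theorem PB2 (hB : BAD_stmt) (hG : GC2_stmt) (hP : PRJ_stmt) : PB2_stmt := by
  classical
  intro ξ hξ0 hξ1 ε hε C₀
  set δ : ℝ := min (ε / 8) ((1 - ξ) / 2) with hδ
  have hδ0 : 0 < δ := lt_min (by linarith) (by linarith)
  have hδ1 : δ ≤ ε / 8 := min_le_left _ _
  have hδ2 : δ ≤ (1 - ξ) / 2 := min_le_right _ _
  obtain ⟨θ, hθ⟩ : ∃ θ : ℝ, θ = ξ + δ := ⟨_, rfl⟩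
  have hθ0 : 0 < θ := by linarith
  have hθ1 : θ ≤ 1 := by linarith
  obtain ⟨τ, hτ⟩ : ∃ τ : ℝ, τ = θ + ε / 8 := ⟨_, rfl⟩
  have hτ0 : 0 < τ := by linarith
  have hτ1 : τ ≤ ξ + ε / 4 := by linarith
  obtain ⟨n, hn⟩ : ∃ n : ℕ, n = ⌈8 / ε⌉₊ := ⟨_, rfl⟩
  have hn8' : 8 ≤ (n : ℝ) * ε := by
    have hn8 : 8 / ε ≤ (n : ℝ) := by
      rw [hn]
      exact Nat.le_ceil _
    rwa [div_le_iff₀ hε] at hn8
  have hn1 : 1 ≤ n := by
    rcases Nat.eq_zero_or_pos n with h | h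
    · rw [h] at hn8'
      norm_num at hn8'
    · exact h
  have hn1R : (1 : ℝ) ≤ n := by exact_mod_cast hn1
  obtain ⟨s, hs⟩ : ∃ s : ℕ, s = s3 C₀ := ⟨_, rfl⟩
  have hs1 : 1 ≤ s := by
    rw [hs]
    exact PB2_s3_pos _
  obtain ⟨J, hJ⟩ : ∃ J : ℕ, J = ⌈((C₀ * s + 1 : ℕ) : ℝ) / τ⌉₊ := ⟨_, rfl⟩
  have hJτ : ((C₀ * s + 1 : ℕ) : ℝ) ≤ τ * J := by
    have h := Nat.le_ceil (((C₀ * s + 1 : ℕ) : ℝ) / τ)
    rw [← hJ, div_le_iff₀ hτ0] at h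
    linarith
  obtain ⟨K, hK⟩ : ∃ K : ℝ, K = (C₀ : ℝ) ^ 2 + 6 * J * C₀ ^ 2 * n * 2 ^ J := ⟨_, rfl⟩
  obtain ⟨N₁, hN₁⟩ : ∃ N₁ : ℕ, ∀ N : ℕ, N₁ ≤ N → K ≤ (N : ℝ) ^ (ε / 2) := by
    have h1 : Filter.Tendsto (fun N : ℕ => (N : ℝ) ^ (ε / 2)) Filter.atTop Filter.atTop :=
      (tendsto_rpow_atTop (by positivity)).comp tendsto_natCast_atTop_atTop
    exact Filter.eventually_atTop.1 (h1.eventually_ge_atTop K)
  refine ⟨δ, hδ0, max N₁ (max ((4 * n + 4) ^ (2 * n + 1)) (s ^ s + 1)), ?_⟩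
  intro N hN d hd2 hdC p hirr hhom hdeg S hNP hS
  have hNK := hN₁ N ((le_max_left _ _).trans hN)
  have hN2 : (4 * n + 4) ^ (2 * n + 1) ≤ N :=
    (le_max_left _ _).trans ((le_max_right _ _).trans hN)
  have hN3 : s ^ s + 1 ≤ N := (le_max_right _ _).trans ((le_max_right _ _).trans hN)
  have hN1 : 1 ≤ N := by omega
  have hN1R : (1 : ℝ) ≤ N := by exact_mod_cast hN1
  have hN0R : (0 : ℝ) ≤ N := by linarith
  have hy1 : (1 : ℝ) ≤ (N : ℝ) ^ τ := Real.one_le_rpow hN1R hτ0.le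
  obtain ⟨x, hxdef⟩ : ∃ x : ℕ, x = ⌈(N : ℝ) ^ τ⌉₊ := ⟨_, rfl⟩
  have hx : (N : ℝ) ^ τ ≤ x := by
    rw [hxdef]
    exact Nat.le_ceil _
  have hx' : (x : ℝ) ≤ 2 * (N : ℝ) ^ τ := by
    have h := Nat.ceil_lt_add_one (show (0 : ℝ) ≤ (N : ℝ) ^ τ by linarith)
    rw [hxdef]
    linarith
  have hx1 : 1 ≤ x := by
    have : (1 : ℝ) ≤ x := hy1.trans hx
    exact_mod_cast this
  obtain ⟨X₀, hX₀⟩ : ∃ X₀ : ℕ, X₀ = ⌊(N : ℝ) ^ θ⌋₊ := ⟨_, rfl⟩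
  have hθ1' : (1 : ℝ) ≤ (N : ℝ) ^ θ := Real.one_le_rpow hN1R hθ0.le
  have hX1 : 1 ≤ X₀ := by
    rw [hX₀]
    exact Nat.le_floor (by exact_mod_cast hθ1')
  have hXR : (X₀ : ℝ) ≤ (N : ℝ) ^ θ := by
    rw [hX₀]
    exact Nat.floor_le (by linarith)
  have hXN : X₀ ≤ N := by
    have h1 : (N : ℝ) ^ θ ≤ (N : ℝ) ^ (1 : ℝ) := Real.rpow_le_rpow_of_exponent_le hN1R hθ1
    rw [Real.rpow_one] at h1
    exact_mod_cast hXR.trans h1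
  obtain ⟨LL, hLc, hLL⟩ := hP J x hx1
  obtain ⟨e, rfl⟩ : ∃ e, d = e + 1 := ⟨d - 1, by omega⟩
  -- the points
  have hpt : ∀ ζ ∈ S, ζ ≠ 0 ∧ |ζ 0| ≤ (X₀ : ℤ) ∧ |ζ 1| ≤ (X₀ : ℤ) ∧ |ζ 2| ≤ (N : ℤ) ∧
      IsCoprime (ζ 0) (ζ 1) ∧ eval ζ p = 0 := by
    intro ζ hζ
    obtain ⟨⟨h0, h1, h2, h3⟩, h4⟩ := hS ζ hζ
    rw [← hθ] at h0 h1
    refine ⟨?_, ?_, ?_, ?_, h3, h4⟩
    · intro hz
      rw [hz] at h3
      have h5 : IsCoprime (0 : ℤ) 0 := h3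
      rw [isCoprime_zero_left] at h5
      exact not_isUnit_zero h5
    · rw [hX₀]
      exact PB2_abs_le h0
    · rw [hX₀]
      exact PB2_abs_le h1
    · have h5 : ((|ζ 2| : ℤ) : ℝ) ≤ ((N : ℤ) : ℝ) := by
        rw [Int.cast_abs]
        exact_mod_cast h2
      exact_mod_cast h5
  have hXNZ : (X₀ : ℤ) ≤ (N : ℤ) := by exact_mod_cast hXN
  have hpt' : ∀ ζ ∈ S, ∀ i, |ζ i| ≤ (N : ℤ) := by
    intro ζ hζ i
    obtain ⟨-, h0, h1, h2, -, -⟩ := hpt ζ hζ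
    fin_cases i
    · exact h0.trans hXNZ
    · exact h1.trans hXNZ
    · exact h2
  -- bad points
  set V : Finset V3 := S.filter fun ζ => ∀ ℓ ∈ LL, ∃ j : Fin 3, ¬ (ℓ : ℤ) ∣ ζ j ∧
    ordGE 2 (loc j (redv ℓ ζ) (redp ℓ p)) with hV
  have hVcard : V.card ≤ (e + 1) * e := by
    refine hB N (e + 1) e 2 p hirr hhom (Nat.lt_succ_self e) (by norm_num) (by omega)
      (PB2_s3 e) LL (fun ℓ hℓ => (hLL ℓ hℓ).1) ?_ V ?_ ?_ ?_
    · have hse : s3 e ≤ s := by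
        rw [hs]
        exact PB2_s3_mono (by omega)
      have hse1 := PB2_s3_pos e
      have hb1 : s3 e * N ^ e ≤ s * N ^ C₀ :=
        Nat.mul_le_mul hse (Nat.pow_le_pow_right hN1 (by omega))
      have hb0 : 1 ≤ s * N ^ C₀ := Nat.mul_pos hs1 (Nat.pow_pos hN1)
      have hb2 : (s3 e * N ^ e) ^ s3 e ≤ (s * N ^ C₀) ^ s :=
        (Nat.pow_le_pow_left hb1 _).trans (Nat.pow_le_pow_right hb0 hse)
      have hb3 : (s * N ^ C₀) ^ s = s ^ s * N ^ (C₀ * s) := by rw [mul_pow, ← pow_mul]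
      have hb4 : s ^ s * N ^ (C₀ * s) < N ^ (C₀ * s + 1) := by
        rw [pow_succ, mul_comm]
        exact Nat.mul_lt_mul_of_pos_left (by omega) (Nat.pow_pos hN1)
      have hb5 : N ^ (C₀ * s + 1) ≤ x ^ J := by
        have h1 : ((N ^ (C₀ * s + 1) : ℕ) : ℝ) ≤ ((x ^ J : ℕ) : ℝ) := by
          rw [Nat.cast_pow, Nat.cast_pow, ← Real.rpow_natCast]
          calc (N : ℝ) ^ (((C₀ * s + 1 : ℕ) : ℝ)) ≤ (N : ℝ) ^ (τ * J) :=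
                Real.rpow_le_rpow_of_exponent_le hN1R hJτ
            _ = ((N : ℝ) ^ τ) ^ J := Real.rpow_mul_natCast hN0R τ J
            _ ≤ (x : ℝ) ^ J := pow_le_pow_left₀ (by linarith) hx J
        exact_mod_cast h1
      have hb6 : x ^ J ≤ ∏ ℓ ∈ LL, ℓ := by
        rw [← hLc, ← Finset.prod_const]
        exact Finset.prod_le_prod (fun _ _ => Nat.zero_le _) fun ℓ hℓ => (hLL ℓ hℓ).2.1.le
      rw [hb3] at hb2
      omega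
    · intro ζ hζ η hη hne
      exact hNP ζ (Finset.mem_filter.1 hζ).1 η (Finset.mem_filter.1 hη).1 hne
    · intro ζ hζ
      have hζS := (Finset.mem_filter.1 hζ).1
      obtain ⟨h1, -, -, -, -, h2⟩ := hpt ζ hζS
      exact ⟨h1, hpt' ζ hζS, h2⟩
    · intro ℓ hℓ ζ hζ
      exact (Finset.mem_filter.1 hζ).2 ℓ hℓ
  -- good points
  have hgood : ∀ ℓ ∈ LL, (S.filter fun ζ => ∃ j : Fin 3, ¬ (ℓ : ℤ) ∣ ζ j ∧
      ¬ ordGE 2 (loc j (redv ℓ ζ) (redp ℓ p))).card ≤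
        3 * ((e + 1) * (2 ^ J * x)) * ((e + 1) * n) := by
    intro ℓ hℓ
    obtain ⟨hℓp, hxℓ, hℓJ⟩ := hLL ℓ hℓ
    haveI : Fact ℓ.Prime := ⟨hℓp⟩
    have hineq : (4 * n + 4) ^ (2 * n + 1) * X₀ ^ (2 * n ^ 2) * N ^ n ≤
        ℓ ^ (n * (2 * n + 1)) := by
      have h1 : (((4 * n + 4) ^ (2 * n + 1) * X₀ ^ (2 * n ^ 2) * N ^ n : ℕ) : ℝ) ≤
          ((ℓ ^ (n * (2 * n + 1)) : ℕ) : ℝ) := by
        have hc : (((4 * n + 4) ^ (2 * n + 1) : ℕ) : ℝ) ≤ (N : ℝ) := by exact_mod_cast hN2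
        rw [Nat.cast_mul, Nat.cast_mul]
        have hX2 : ((X₀ ^ (2 * n ^ 2) : ℕ) : ℝ) ≤ (N : ℝ) ^ (θ * ((2 * n ^ 2 : ℕ) : ℝ)) := by
          rw [Nat.cast_pow, Real.rpow_mul_natCast hN0R]
          exact pow_le_pow_left₀ (by positivity) hXR _
        have hNn : ((N ^ n : ℕ) : ℝ) = (N : ℝ) ^ (n : ℝ) := by
          rw [Nat.cast_pow, Real.rpow_natCast]
        have hN1' : (N : ℝ) = (N : ℝ) ^ (1 : ℝ) := (Real.rpow_one _).symm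
        have hNpos : (0 : ℝ) < N := by linarith
        calc (((4 * n + 4) ^ (2 * n + 1) : ℕ) : ℝ) * ((X₀ ^ (2 * n ^ 2) : ℕ) : ℝ) *
              ((N ^ n : ℕ) : ℝ)
            ≤ (N : ℝ) ^ (1 : ℝ) * (N : ℝ) ^ (θ * ((2 * n ^ 2 : ℕ) : ℝ)) * (N : ℝ) ^ (n : ℝ) := by
              rw [hNn]
              refine mul_le_mul_of_nonneg_right ?_ (by positivity)
              exact mul_le_mul (by rw [Real.rpow_one]; exact hc) hX2 (by positivity)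
                (by positivity)
          _ = (N : ℝ) ^ (1 + θ * ((2 * n ^ 2 : ℕ) : ℝ) + n) := by
              rw [Real.rpow_add hNpos, Real.rpow_add hNpos]
          _ ≤ (N : ℝ) ^ (τ * ((n * (2 * n + 1) : ℕ) : ℝ)) := by
              refine Real.rpow_le_rpow_of_exponent_le hN1R ?_
              push_cast
              rw [hτ]
              have h2 : (n : ℝ) * 8 ≤ n * (n * ε) := mul_le_mul_of_nonneg_left hn8' (by linarith)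
              nlinarith [mul_pos hθ0 (show (0 : ℝ) < n by linarith)]
          _ = ((N : ℝ) ^ τ) ^ (n * (2 * n + 1)) := Real.rpow_mul_natCast hN0R _ _
          _ ≤ (ℓ : ℝ) ^ (n * (2 * n + 1)) := by
              refine pow_le_pow_left₀ (by linarith) (hx.trans ?_) _
              exact_mod_cast hxℓ.le
          _ = ((ℓ ^ (n * (2 * n + 1)) : ℕ) : ℝ) := by rw [Nat.cast_pow]
      exact_mod_cast h1
    have h2 := hG ℓ N X₀ (e + 1) n p hirr hhom hd2 hdeg hn1 hX1 hN1 hineq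
      (S.filter fun ζ => ∃ j : Fin 3, ¬ (ℓ : ℤ) ∣ ζ j ∧
        ¬ ordGE 2 (loc j (redv ℓ ζ) (redp ℓ p))) ?_ ?_
    · refine h2.trans ?_
      gcongr
    · intro ζ hζ η hη hne
      exact hNP ζ (Finset.mem_filter.1 hζ).1 η (Finset.mem_filter.1 hη).1 hne
    · intro ζ hζ
      obtain ⟨hζS, hj⟩ := Finset.mem_filter.1 hζ
      obtain ⟨-, h0, h1, h2, -, h3⟩ := hpt ζ hζS
      exact ⟨h0, h1, h2, h3, hj⟩
  -- covering
  have hcov : S ⊆ V ∪ LL.biUnion fun ℓ => S.filter fun ζ => ∃ j : Fin 3, ¬ (ℓ : ℤ) ∣ ζ j ∧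
      ¬ ordGE 2 (loc j (redv ℓ ζ) (redp ℓ p)) := by
    intro ζ hζ
    rw [Finset.mem_union]
    by_cases hζV : ζ ∈ V
    · exact Or.inl hζV
    · right
      rw [hV, Finset.mem_filter] at hζV
      have h1 : ¬ ∀ ℓ ∈ LL, ∃ j : Fin 3, ¬ (ℓ : ℤ) ∣ ζ j ∧
          ordGE 2 (loc j (redv ℓ ζ) (redp ℓ p)) := fun h => hζV ⟨hζ, h⟩
      push Not at h1
      obtain ⟨ℓ, hℓ, h2⟩ := h1
      rw [Finset.mem_biUnion]
      refine ⟨ℓ, hℓ, ?_⟩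
      rw [Finset.mem_filter]
      refine ⟨hζ, ?_⟩
      have hℓp := (hLL ℓ hℓ).1
      have h3 : ∃ j : Fin 3, ¬ (ℓ : ℤ) ∣ ζ j := by
        by_contra hcon
        push Not at hcon
        have hcop := (hpt ζ hζ).2.2.2.2.1
        have h4 := hcop.isUnit_of_dvd' (hcon 0) (hcon 1)
        rw [Int.isUnit_iff_natAbs_eq, Int.natAbs_natCast] at h4
        exact hℓp.one_lt.ne' h4
      obtain ⟨j, hj⟩ := h3
      exact ⟨j, hj, h2 j hj⟩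
  have hcard : S.card ≤ (e + 1) * e + J * (3 * ((e + 1) * (2 ^ J * x)) * ((e + 1) * n)) := by
    refine (Finset.card_le_card hcov).trans ((Finset.card_union_le _ _).trans ?_)
    refine Nat.add_le_add hVcard ?_
    refine (Finset.card_biUnion_le).trans ?_
    refine (Finset.sum_le_card_nsmul _ _ _ hgood).trans ?_
    rw [hLc, smul_eq_mul]
  have hcardR : (S.card : ℝ) ≤ ((e : ℝ) + 1) * e +
      J * (3 * (((e : ℝ) + 1) * (2 ^ J * x)) * (((e : ℝ) + 1) * n)) := by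
    exact_mod_cast hcard
  have heC : (e : ℝ) + 1 ≤ C₀ := by exact_mod_cast hdC
  have he0 : (0 : ℝ) ≤ e := by positivity
  have hNpos : (0 : ℝ) < N := by linarith
  have hτpos : (0 : ℝ) < (N : ℝ) ^ τ := by linarith
  calc (S.card : ℝ) ≤ ((e : ℝ) + 1) * e +
        J * (3 * (((e : ℝ) + 1) * (2 ^ J * x)) * (((e : ℝ) + 1) * n)) := hcardR
    _ ≤ (C₀ : ℝ) * C₀ + J * (3 * ((C₀ : ℝ) * (2 ^ J * (2 * (N : ℝ) ^ τ))) * ((C₀ : ℝ) * n)) := by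
        gcongr
        linarith
    _ = (C₀ : ℝ) ^ 2 * 1 + 6 * J * C₀ ^ 2 * n * 2 ^ J * (N : ℝ) ^ τ := by ring
    _ ≤ (C₀ : ℝ) ^ 2 * (N : ℝ) ^ τ + 6 * J * C₀ ^ 2 * n * 2 ^ J * (N : ℝ) ^ τ := by
        gcongr
    _ = K * (N : ℝ) ^ τ := by
        rw [hK]
        ring
    _ ≤ (N : ℝ) ^ (ε / 2) * (N : ℝ) ^ τ := by gcongr
    _ = (N : ℝ) ^ (ε / 2 + τ) := (Real.rpow_add hNpos _ _).symm
    _ ≤ (N : ℝ) ^ (ξ + ε) := Real.rpow_le_rpow_of_exponent_le hN1R (by linarith)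

end Pool.Agent.WB
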